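import Pool.Agent.H74.DT.Defs
import Pool.Agent.H28.MZ.Targets

/-!
# Dilations `1 < r < 11/5`: exact targets of section 1 (moments) (MP_9f0eeb_nt)
-/

set_option autoImplicit false

open Complex MeasureTheory Set

namespace Pool.Agent.H47.DT

open Pool.Agent.H23.GLH (PrimChar)
open Pool.Agent.H28.MZ (co wl ei Bf W dv)
open Pool.Agent.H74.DT

/-! ### The class of weights -/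

/-- functions `Φ` on `[0, ∞)` which are averages of `e^{-zx}`, `Re z ≥ 0`, with weight
`(1 + |z|)^A` -/
def Kf (A : ℕ) (M : ℝ) (Φ : ℝ → ℂ) : Prop :=
  ∃ (Ω : Type) (_ : MeasurableSpace Ω) (ν : Measure Ω) (h z : Ω → ℂ),
    IsFiniteMeasure ν ∧ Measurable h ∧ Measurable z ∧ (∀ ω, ‖h ω‖ ≤ 1) ∧ (∀ ω, 0 ≤ (z ω).re) ∧
    Integrable (fun ω => (1 + ‖z ω‖) ^ A) ν ∧ ∫ ω, (1 + ‖z ω‖) ^ A ∂ν ≤ M ∧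
    ∀ x : ℝ, 0 ≤ x → Φ x = ∫ ω, h ω * cexp (-(z ω * x)) ∂ν

/-- the coefficients `Φ(log n / L)` or `μ(n) Φ(log n / L)` -/
noncomputable def sl (b : Bool) (L : ℝ) (Φ : ℝ → ℂ) : ArithmeticFunction ℂ :=
  ⟨fun n => if n = 0 then 0 else
    (if b then ((ArithmeticFunction.moebius n : ℤ) : ℂ) else 1) * Φ (Real.log n / L), by simp⟩

/-- the Dirichlet convolution of `k` pairs of such coefficients -/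
noncomputable def cc (k : ℕ) (L : ℝ) (Φ : Fin k × Bool → ℝ → ℂ) : ArithmeticFunction ℂ :=
  ∏ i : Fin k × Bool, sl i.2 L (Φ i)

/-- (KO) operations: constants, exponentials, multiples, sums, products, dilations, changes for
`x < 0`. -/
def T_KO : Prop :=
  (∀ (A : ℕ) (z : ℂ), 0 ≤ z.re → Kf A ((1 + ‖z‖) ^ A) fun x => cexp (-(z * x))) ∧
  (∀ (A : ℕ) (M : ℝ) (Φ : ℝ → ℂ) (c : ℂ), Kf A M Φ → Kf A (‖c‖ * M) fun x => c * Φ x) ∧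
  (∀ (A : ℕ) (M N : ℝ) (Φ Ψ : ℝ → ℂ), Kf A M Φ → Kf A N Ψ → Kf A (M + N) fun x => Φ x + Ψ x) ∧
  (∀ (A : ℕ) (M N : ℝ) (Φ Ψ : ℝ → ℂ), Kf A M Φ → Kf A N Ψ → Kf A (M * N) fun x => Φ x * Ψ x) ∧
  (∀ (A : ℕ) (M R : ℝ) (Φ : ℝ → ℂ), 1 ≤ R → Kf A M Φ → Kf A (R ^ A * M) fun x => Φ (R * x)) ∧
  (∀ (A : ℕ) (M N : ℝ) (Φ Ψ : ℝ → ℂ), Kf A M Φ → M ≤ N → (∀ x, 0 ≤ x → Ψ x = Φ x) → Kf A N Ψ)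

/-- (KP) the functions of the proof: `φ(x/θ) e^{cx}`. -/
def T_KP : Prop :=
  ∀ (δ : ℝ) (φ : ℝ → ℝ), 0 < δ → δ < 1 → Cut δ φ → ∀ A : ℕ, ∃ C : ℝ, 1 ≤ C ∧ ∀ θ c : ℝ,
    0 < θ → θ ≤ 1 → Kf A (C * (1 / θ) ^ A * (1 + |c|) ^ A * Real.exp (2 * (θ * max 0 c)))
      fun x => ((φ (x / θ) * Real.exp (c * x) : ℝ) : ℂ)

/-! ### Arithmetic sums -/

/-- (EU) upper bound by an Euler product. -/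
def T_EU : Prop :=
  ∀ (f g : ℕ → ℝ) (B : ℝ), (∀ n, 0 ≤ f n) → f 1 = 1 → f 0 = 0 →
    (∀ m n : ℕ, Nat.Coprime m n → f (m * n) = f m * f n) →
    (∀ p : ℕ, p.Prime → (Summable fun j : ℕ => f (p ^ (j + 1))) ∧
      ∑' j : ℕ, f (p ^ (j + 1)) ≤ g p) →
    (∀ s : Finset ℕ, ∑ p ∈ s.filter Nat.Prime, g p ≤ B) →
    Summable f ∧ ∑' n, f n ≤ Real.exp B

/-- (SP) sums over primes, from the behaviour of the zeta function at `1`. -/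
def T_SP : Prop :=
  ∃ C : ℝ, 0 < C ∧ ∀ L V : ℝ, 1 ≤ L → 0 ≤ V → ∀ s : Finset ℕ,
    ∑ p ∈ s.filter Nat.Prime, min 1 (V * Real.log p / L) * (p : ℝ) ^ (-(1 + 2 / L)) ≤
      C * (1 + Real.log (1 + V))

/-- (A0) pure exponentials. -/
def T_A0 : Prop :=
  ∀ k : ℕ, ∃ (A : ℕ) (C : ℝ), 0 < C ∧ ∀ (L : ℝ) (z : Fin k × Bool → ℂ), 1 ≤ L →
    (∀ i, 0 ≤ (z i).re) →
    (Summable fun n : ℕ =>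
      ‖cc k L (fun i x => cexp (-(z i * x))) n‖ ^ 2 * (n : ℝ) ^ (-(1 + 2 / L))) ∧
    ∑' n : ℕ, ‖cc k L (fun i x => cexp (-(z i * x))) n‖ ^ 2 *
      (n : ℝ) ^ (-(1 + 2 / L)) ≤ C * ∏ i, (1 + ‖z i‖) ^ A

/-- (AR) functions of the class. -/
def T_AR : Prop :=
  ∀ k : ℕ, ∃ (A : ℕ) (C : ℝ), 0 < C ∧ ∀ (L : ℝ) (Φ : Fin k × Bool → ℝ → ℂ)
    (M : Fin k × Bool → ℝ), 1 ≤ L → (∀ i, Kf A (M i) (Φ i)) →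
    (Summable fun n : ℕ => ‖cc k L Φ n‖ ^ 2 * (n : ℝ) ^ (-(1 + 2 / L))) ∧
    ∑' n : ℕ, ‖cc k L Φ n‖ ^ 2 * (n : ℝ) ^ (-(1 + 2 / L)) ≤ C * ∏ i, M i ^ 2

/-! ### Mean squares -/

/-- (MV) mean square of a Dirichlet polynomial. -/
def T_MV : Prop :=
  ∃ C : ℝ, 0 < C ∧ ∀ (X : ℝ) (N : ℕ) (a : ℕ → ℂ), 1 ≤ X → (N : ℝ) ≤ X →
    ∫ t in (0 : ℝ)..X, ‖∑ n ∈ Finset.Icc 1 N, a n * (n : ℂ) ^ (-(t * I) : ℂ)‖ ^ 2 ≤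
      C * X * ∑ n ∈ Finset.Icc 1 N, ‖a n‖ ^ 2

/-- the Dirichlet polynomial `∑_{n ≤ N} c(n) χ(n) n^{-s}` -/
noncomputable def Dp (π : PrimChar) (c : ℕ → ℂ) (N : ℕ) (s : ℂ) : ℂ :=
  ∑ n ∈ Finset.Icc 1 N, c n * co π n * (n : ℂ) ^ (-s)

/-- (DP) high moments of products of two Dirichlet polynomials with coefficients of the class;
`Ψ` vanishes on `[0, l₀]` (or `l₀ = 0`). -/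
def T_DP : Prop :=
  ∀ k : ℕ, 1 ≤ k → ∃ (A : ℕ) (C : ℝ), 0 < C ∧ ∀ (π : PrimChar) (T l₁ l₂ l₀ K x M₁ M₂ : ℝ)
    (Φ Ψ : ℝ → ℂ), 3 ≤ T → 0 < l₁ → 0 < l₂ → k * (l₁ + l₂) ≤ 1 → 0 ≤ l₀ →
    1 ≤ K → 1 ≤ x → Kf A M₁ Φ → Kf A M₂ Ψ → (∀ y, l₁ ≤ y → Φ y = 0) →
    (∀ y, l₂ ≤ y → Ψ y = 0) → ((∀ y, 0 ≤ y → y ≤ l₀ → Ψ y = 0) ∨ l₀ = 0) →
    ∫ t in (0 : ℝ)..(K * T), ‖Dp π (sl false (Real.log T) Φ) ⌊T ^ l₁⌋₊ (pt T x t) *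
        Dp π (sl true (Real.log T) Ψ) ⌊T ^ l₂⌋₊ (pt T x t)‖ ^ (2 * k) ≤
      C * K * T * (M₁ ^ (2 * k) * M₂ ^ (2 * k) * Real.exp (-(2 * k * l₀ * (x - 1))))

/-- (FM) the twisted first moment. -/
def T_FM : Prop :=
  ∀ (π : PrimChar) (δ A : ℝ), 0 < δ → δ < 1 → 0 < A → ∃ N₀ : ℕ, ∀ N : ℕ, N₀ ≤ N →
    ∃ C : ℝ, 0 < C ∧ ∀ (σ u : ℝ) (h n : ℕ), 1 / 2 ≤ σ → σ ≤ 3 / 5 → 1 ≤ u → 1 ≤ h → 1 ≤ n →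
      (h : ℝ) ≤ u → (n : ℝ) ≤ u ^ (1 - δ) →
      IntegrableOn (fun t : ℝ => ((W N u t : ℝ) : ℂ) * π.L (σ + t * I)) (Ioi 0) ∧
      ‖(∫ t in Ioi (0 : ℝ), ((W N u t : ℝ) : ℂ) * π.L (σ + t * I) *
          ei (t * (Real.log n - Real.log h))) -
        u * (if h ∣ n then co π (n / h) * (((n / h : ℕ) : ℝ) ^ (-σ) : ℝ) else 0)‖ ≤
        C * u ^ (-A)

/-- (M2) the twisted mean square of `L` for bounded real coefficients. -/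
def T_M2 : Prop :=
  ∀ (π : PrimChar) (δ₁ : ℝ), 0 < δ₁ → δ₁ < 1 / 2 → ∃ N₀ : ℕ, ∀ N : ℕ, N₀ ≤ N →
    ∃ C δ σ₁ : ℝ, 0 < C ∧ 0 < δ ∧ 1 / 2 < σ₁ ∧ ∀ (σ u : ℝ) (b : ℕ → ℝ) (Y : ℕ),
      1 / 2 < σ → σ ≤ σ₁ → 1 ≤ u → (∀ h, |b h| ≤ 1) → (Y : ℝ) ≤ u ^ (1 / 2 - δ₁) →
      IntegrableOn (fun t : ℝ =>
        W N u t * (‖π.L (σ + t * I)‖ ^ 2 * ‖Bf π b Y (σ + t * I)‖ ^ 2)) (Ioi 0) ∧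
      (∫ t in Ioi (0 : ℝ), W N u t * (‖π.L (σ + t * I)‖ ^ 2 * ‖Bf π b Y (σ + t * I)‖ ^ 2)) ≤
        u * ((∑' n : ℕ, if n.Coprime π.q then
          (∑ h ∈ n.divisors.filter (· ≤ Y), b h) ^ 2 * (n : ℝ) ^ (-(2 * σ)) else 0) +
            C * u ^ (-δ))

/-- (MS) the mean square of `L B - G`. -/
def T_MS : Prop :=
  ∀ (π : PrimChar) (δ₁ : ℝ), 0 < δ₁ → δ₁ < 1 / 2 → ∃ N₀ : ℕ, ∀ N : ℕ, N₀ ≤ N →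
    ∃ C δ σ₁ : ℝ, 0 < C ∧ 0 < δ ∧ 1 / 2 < σ₁ ∧ ∀ (σ u : ℝ) (b g : ℕ → ℝ) (Y Z : ℕ),
      1 / 2 < σ → σ ≤ σ₁ → 1 ≤ u → (∀ h, |b h| ≤ 1) → (∀ n, |g n| ≤ dv n) →
      (Y : ℝ) ≤ u ^ (1 / 2 - δ₁) → (Z : ℝ) ≤ u ^ (1 - δ₁) →
      IntegrableOn (fun t : ℝ => W N u t *
        ‖π.L (σ + t * I) * Bf π b Y (σ + t * I) - Bf π g Z (σ + t * I)‖ ^ 2) (Ioi 0) ∧
      (∫ t in Ioi (0 : ℝ), W N u t *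
        ‖π.L (σ + t * I) * Bf π b Y (σ + t * I) - Bf π g Z (σ + t * I)‖ ^ 2) ≤
        u * ((∑' n : ℕ, if n.Coprime π.q then
          ((∑ h ∈ n.divisors.filter (· ≤ Y), b h) - if n ≤ Z then g n else 0) ^ 2 *
            (n : ℝ) ^ (-(2 * σ)) else 0) + C * u ^ (-δ))

/-- (MI) the same on a long interval, for coefficients bounded by multiples of `B`. -/
def T_MI : Prop :=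
  ∀ (π : PrimChar) (δ₁ c K : ℝ), 0 < δ₁ → δ₁ < 1 / 2 → 0 < c → c < K →
    ∃ C δ σ₁ T₀ : ℝ, 0 < C ∧ 0 < δ ∧ 1 / 2 < σ₁ ∧ ∀ (σ T B : ℝ) (b g : ℕ → ℝ) (Y Z : ℕ),
      1 / 2 < σ → σ ≤ σ₁ → T₀ ≤ T → 0 < B → (∀ h, |b h| ≤ B) → (∀ n, |g n| ≤ B * dv n) →
      (Y : ℝ) ≤ T ^ (1 / 2 - δ₁) → (Z : ℝ) ≤ T ^ (1 - δ₁) →
      (∫ t in (c * T)..(K * T),
        ‖π.L (σ + t * I) * Bf π b Y (σ + t * I) - Bf π g Z (σ + t * I)‖ ^ 2) ≤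
        C * T * ((∑' n : ℕ, if n.Coprime π.q then
          ((∑ h ∈ n.divisors.filter (· ≤ Y), b h) - if n ≤ Z then g n else 0) ^ 2 *
            (n : ℝ) ^ (-(2 * σ)) else 0) + B ^ 2 * T ^ (-δ))

/-- (LM) mean square of `L` times a mollifier on both sides of the line `1/2`. -/
def T_LM : Prop :=
  ∀ (π : PrimChar) (δ κ c K : ℝ) (φ : ℝ → ℝ), 0 < δ → δ < 1 → Cut δ φ → 0 < κ → κ < 1 / 2 →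
    0 < c → c < K → ∃ C : ℝ, 0 < C ∧ ∀ Y θ : ℝ, 1 ≤ Y → 1 / Y ≤ θ → θ ≤ κ → ∃ T₀ : ℝ,
    ∀ T x μ : ℝ, T₀ ≤ T → 1 ≤ |x| → |x| ≤ Y → |μ| ≤ Y →
    ∫ t in (c * T)..(K * T), ‖π.L (pt T x t) *
      Bf π (cm φ π.q θ μ (Real.log T)) ⌊T ^ θ⌋₊ (pt T x t)‖ ^ 2 ≤ T * Real.exp (C * Y)

/-! ### The moments of the proof -/

/-- (N1) -/
def T_N1 : Prop :=
  ∀ D : Dat, D.Ok → ∃ (C : ℕ) (R₀ : ℝ), ∀ R : ℝ, R₀ ≤ R → ∃ T₀ : ℝ, ∀ T x : ℝ, T₀ ≤ T →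
    |x - R| ≤ 1 → ∫ t in (T / 2)..(3 * T), ‖D.ν T x t‖ ^ 2 ≤
      T * (R ^ C * Real.exp (-((1 - 4 * D.δ) * R)))

/-- (N2) -/
def T_N2 : Prop :=
  ∀ (D : Dat) (l : ℝ), D.Ok → (l = 0 ∨ l = 2) → ∃ (C : ℕ) (R₀ : ℝ), ∀ R : ℝ, R₀ ≤ R →
    ∃ T₀ : ℝ, ∀ T τ x : ℝ, T₀ ≤ T → |τ| ≤ T / 4 → |x - R| ≤ 1 →
    ∫ t in (T / 2)..(3 * T), ‖D.V l R T τ x t - D.P l R T τ x t‖ ^ 2 ≤
      T * (R ^ C * Real.exp (-(2 * (D.r * (1 / 5 - 3 * D.δ)) * R)))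

/-- (N3) -/
def T_N3 : Prop :=
  ∀ (D : Dat) (l : ℝ), D.Ok → (l = 0 ∨ l = 2) → ∃ (C : ℕ) (R₀ : ℝ), ∀ R : ℝ, R₀ ≤ R →
    ∃ T₀ : ℝ, ∀ T x : ℝ, T₀ ≤ T → |x - R| ≤ 1 →
    ∫ t in (T / 2)..(3 * T), ‖D.U l R T x t - D.U₅ l R T x t‖ ^ 4 ≤
      T * (R ^ C * Real.exp (-(4 * (1 / 5 - 3 * D.δ) * R)))

/-- (N4) -/
def T_N4 : Prop :=
  ∀ (D : Dat) (l : ℝ), D.Ok → (l = 0 ∨ l = 2) → ∃ (C : ℕ) (R₀ : ℝ), ∀ R : ℝ, R₀ ≤ R →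
    ∃ T₀ : ℝ, ∀ T x : ℝ, T₀ ≤ T → |x - R| ≤ 1 →
    ∫ t in (T / 2)..(3 * T), ‖D.U₅ l R T x t‖ ^ 10 ≤ T * R ^ C

/-- (N5) -/
def T_N5 : Prop :=
  ∀ (D : Dat) (l : ℝ), D.Ok → (l = 0 ∨ l = 2) → ∃ (C : ℕ) (R₀ : ℝ), ∀ R : ℝ, R₀ ≤ R →
    ∃ T₀ : ℝ, ∀ T τ x : ℝ, T₀ ≤ T → |τ| ≤ T / 4 → |x - R| ≤ 1 →
    ∫ t in (T / 2)..(3 * T), ‖D.P l R T τ x t‖ ^ 10 ≤ T * R ^ C

/-- (N6) -/
def T_N6 : Prop :=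
  ∀ D : Dat, D.Ok → ∃ C : ℝ, 0 < C ∧ ∀ R : ℝ, 1 ≤ R → ∃ T₀ : ℝ, ∀ T τ : ℝ, T₀ ≤ T →
    |τ| ≤ T / 4 →
    (∫ t in (T / 2)..(3 * T), ‖D.S T τ (pt T R t)‖ ^ 6 ≤ T * (C * Real.exp (D.y * R)) ^ 6) ∧
    (∫ t in (T / 2)..(3 * T), ‖D.S T τ (pt T (-R) t)‖ ^ 6 ≤
      T * (C * Real.exp (-((D.y - D.δ) * R))) ^ 6)

/-- (NS) crude mean square of the test polynomial. -/
def T_NS : Prop :=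
  ∀ D : Dat, D.Ok → ∃ C : ℝ, 0 < C ∧ ∀ Y : ℝ, 1 ≤ Y → ∃ T₀ : ℝ, ∀ T τ x : ℝ, T₀ ≤ T →
    |τ| ≤ T / 4 → |x| ≤ Y →
    ∫ t in (T / 2)..(3 * T), ‖D.S T τ (pt T x t)‖ ^ 2 ≤ T * Real.exp (C * Y)

/-- (N7) crude mean squares on the lines `x = -R-4` and `x = 3R+4`. -/
def T_N7 : Prop :=
  ∀ D : Dat, D.Ok → ∃ C R₀ : ℝ, 0 < C ∧ ∀ R : ℝ, R₀ ≤ R → ∃ T₀ : ℝ, ∀ T τ x : ℝ, T₀ ≤ T →
    |τ| ≤ T / 4 → (x = -R - 4 ∨ x = 3 * R + 4) →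
    (∫ t in (T / 2)..(3 * T), ‖D.F₁ (pt T x t) * D.A T (pt T x t)‖ ^ 2 ≤
      T * Real.exp (C * R)) ∧
    (∫ t in (T / 2)..(3 * T), ‖D.F₂ τ (pt T x t) * D.B₂ R T τ (pt T (x + 2 * R) t)‖ ^ 2 ≤
      T * Real.exp (C * R)) ∧
    (∫ t in (T / 2)..(3 * T), ‖D.B₁ R T (pt T (x + 2 * R) t) * D.A T (pt T x t)‖ ^ 2 ≤
      T * Real.exp (C * R)) ∧
    ∫ t in (T / 2)..(3 * T), ‖D.S T τ (pt T x t)‖ ^ 2 ≤ T * Real.exp (C * R)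

end Pool.Agent.H47.DT
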